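import Pool.Agent.L0h58.HN.Stm

/-! # HN: module MGF, exponential moments of functions with bounded differences -/

set_option autoImplicit false

namespace Pool.Agent.L0h85.HN

open Finset Pool.Agent.L0h58.HN

theorem hoeff {α : Type} [Fintype α] (y : α → ℝ) (c l : ℝ) (hc : 0 ≤ c) (hy : ∀ a, |y a| ≤ c)
    (h0 : ∑ a, y a = 0) :
    ∑ a, Real.exp (l * y a) ≤ (Fintype.card α : ℝ) * Real.exp (l ^ 2 * c ^ 2 / 2) := by
  rcases hc.eq_or_lt with hc0 | hc0
  · have hy0 : ∀ a, y a = 0 := fun a => abs_nonpos_iff.1 (hc0 ▸ hy a)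
    simp [hy0, ← hc0]
  · have key : ∀ a, Real.exp (l * y a) ≤ Real.cosh (l * c) + y a / c * Real.sinh (l * c) := by
      intro a
      have h1 := abs_le.1 (hy a)
      have hle1 : y a / c ≤ 1 := by rw [div_le_one hc0]; exact h1.2
      have hge1 : -1 ≤ y a / c := by rw [le_div_iff₀ hc0]; linarith [h1.1]
      have h := convexOn_exp.2 (Set.mem_univ (l * c)) (Set.mem_univ (-(l * c)))
        (by linarith : 0 ≤ (1 + y a / c) / 2) (by linarith : 0 ≤ (1 - y a / c) / 2) (by ring)
      have e1 : ((1 + y a / c) / 2) • (l * c) + ((1 - y a / c) / 2) • (-(l * c)) = l * y a := by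
        simp only [smul_eq_mul]
        field_simp
        ring
      rw [e1] at h
      refine h.trans (le_of_eq ?_)
      rw [Real.cosh_eq, Real.sinh_eq]
      simp only [smul_eq_mul]
      ring
    calc ∑ a, Real.exp (l * y a) ≤ ∑ a, (Real.cosh (l * c) + y a / c * Real.sinh (l * c)) :=
          Finset.sum_le_sum fun a _ => key a
      _ = (Fintype.card α : ℝ) * Real.cosh (l * c) := by
          rw [Finset.sum_add_distrib, ← Finset.sum_mul, ← Finset.sum_div, h0]
          simp
      _ ≤ (Fintype.card α : ℝ) * Real.exp (l ^ 2 * c ^ 2 / 2) := by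
          refine mul_le_mul_of_nonneg_left ?_ (Nat.cast_nonneg _)
          have := Real.cosh_le_exp_half_sq (l * c)
          rwa [mul_pow] at this

theorem sum_cons {α : Type} [Fintype α] {r : ℕ} (g : (Fin (r + 1) → α) → ℝ) :
    ∑ x, g x = ∑ a, ∑ x' : Fin r → α, g (Fin.cons a x') := by
  rw [← (Fin.consEquiv (fun _ : Fin (r + 1) => α)).sum_comp, Fintype.sum_prod_type]
  rfl

theorem t_MGF : S_MGF := by
  intro r
  induction r with
  | zero =>
    intro α _ _ f c _ _ l
    simp
  | succ r ih =>
    intro α _ _ f c hc hf l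
    have hcard : (0 : ℝ) < (Fintype.card α : ℝ) := by exact_mod_cast Fintype.card_pos
    have hcr : (0 : ℝ) < (Fintype.card α : ℝ) ^ r := pow_pos hcard r
    set A : ℝ := (Fintype.card α : ℝ) with hA
    set G : α → ℝ := fun a => (∑ x' : Fin r → α, f (Fin.cons a x')) / A ^ r with hG
    set M : ℝ := (∑ x, f x) / A ^ (r + 1) with hM
    have hMG : M = (∑ a, G a) / A := by
      rw [hM, sum_cons, hG, ← Finset.sum_div, pow_succ, div_div]
    have hGd : ∀ a a', |G a - G a'| ≤ c := by
      intro a a'
      have e : G a - G a' = (∑ x' : Fin r → α, (f (Fin.cons a x') - f (Fin.cons a' x'))) / A ^ r := by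
        rw [hG, Finset.sum_sub_distrib, sub_div]
      rw [e, abs_div, abs_of_pos hcr, div_le_iff₀ hcr]
      refine (Finset.abs_sum_le_sum_abs _ _).trans ?_
      have : ∀ x' ∈ (univ : Finset (Fin r → α)), |f (Fin.cons a x') - f (Fin.cons a' x')| ≤ c := by
        intro x' _
        have := hf (Fin.cons a' x') 0 a
        rwa [Fin.update_cons_zero] at this
      refine (Finset.sum_le_card_nsmul _ _ _ this).trans (le_of_eq ?_)
      rw [nsmul_eq_mul, Finset.card_univ, Fintype.card_pi, Finset.prod_const, Finset.card_univ,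
        Fintype.card_fin]
      push_cast
      ring
    have hy : ∀ a, |G a - M| ≤ c := by
      intro a
      have e : G a - M = (∑ a', (G a - G a')) / A := by
        rw [hMG, Finset.sum_sub_distrib, Finset.sum_const, Finset.card_univ, nsmul_eq_mul, ← hA]
        field_simp
      rw [e, abs_div, abs_of_pos hcard, div_le_iff₀ hcard]
      refine (Finset.abs_sum_le_sum_abs _ _).trans ?_
      refine (Finset.sum_le_card_nsmul _ _ _ fun a' _ => hGd a a').trans (le_of_eq ?_)
      rw [nsmul_eq_mul, Finset.card_univ, mul_comm]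
    have h0 : ∑ a, (G a - M) = 0 := by
      rw [Finset.sum_sub_distrib, Finset.sum_const, Finset.card_univ, nsmul_eq_mul, ← hA, hMG]
      field_simp
      ring
    have hin : ∀ a, ∑ x' : Fin r → α, Real.exp (l * (f (Fin.cons a x') - G a)) ≤
        A ^ r * Real.exp (l ^ 2 * r * c ^ 2 / 2) := by
      intro a
      refine ih α (fun x' => f (Fin.cons a x')) c hc (fun x i b => ?_) l
      have := hf (Fin.cons a x) i.succ b
      rwa [← Fin.cons_update] at this
    calc ∑ x, Real.exp (l * (f x - M)) =
        ∑ a, Real.exp (l * (G a - M)) * ∑ x' : Fin r → α, Real.exp (l * (f (Fin.cons a x') - G a)) := by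
          rw [sum_cons]
          refine Finset.sum_congr rfl fun a _ => ?_
          rw [Finset.mul_sum]
          refine Finset.sum_congr rfl fun x' _ => ?_
          rw [← Real.exp_add]
          congr 1
          ring
      _ ≤ ∑ a, Real.exp (l * (G a - M)) * (A ^ r * Real.exp (l ^ 2 * r * c ^ 2 / 2)) :=
          Finset.sum_le_sum fun a _ => mul_le_mul_of_nonneg_left (hin a) (Real.exp_nonneg _)
      _ = (∑ a, Real.exp (l * (G a - M))) * (A ^ r * Real.exp (l ^ 2 * r * c ^ 2 / 2)) := by
          rw [Finset.sum_mul]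
      _ ≤ (A * Real.exp (l ^ 2 * c ^ 2 / 2)) * (A ^ r * Real.exp (l ^ 2 * r * c ^ 2 / 2)) :=
          mul_le_mul_of_nonneg_right (hoeff _ c l hc hy h0) (by positivity)
      _ = A ^ (r + 1) * Real.exp (l ^ 2 * ((r + 1 : ℕ) : ℝ) * c ^ 2 / 2) := by
          rw [mul_mul_mul_comm, ← Real.exp_add, ← pow_succ']
          congr 2
          push_cast
          ring

end Pool.Agent.L0h85.HN
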