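import Pool.Agent.L0h85.HN.MGF

/-! # HN: module SMP, most samples are accurate -/

set_option autoImplicit false

namespace Pool.Agent.L0h85.HN

open Finset Pool.Agent.L0h58.HN

/-- the mean of a sum of functions of the single coordinates -/
theorem mean_sum {α : Type} [Fintype α] (g : α → ℝ) (r : ℕ) :
    (Fintype.card α : ℝ) * ∑ x : Fin r → α, ∑ a, g (x a) =
      r * (∑ b, g b) * (Fintype.card α : ℝ) ^ r := by
  induction r with
  | zero => simp
  | succ r ih =>
    rw [sum_cons]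
    have h1 : ∀ b : α, ∑ x' : Fin r → α, ∑ a : Fin (r + 1), g ((Fin.cons b x' : Fin (r + 1) → α) a) =
        (Fintype.card α : ℝ) ^ r * g b + ∑ x' : Fin r → α, ∑ a, g (x' a) := by
      intro b
      have h2 : ∀ x' : Fin r → α, ∑ a : Fin (r + 1), g ((Fin.cons b x' : Fin (r + 1) → α) a) =
          g b + ∑ a, g (x' a) := by
        intro x'
        rw [Fin.sum_univ_succ]
        simp
      simp only [h2]
      rw [Finset.sum_add_distrib, Finset.sum_const, Finset.card_univ, nsmul_eq_mul,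
        Fintype.card_fun, Fintype.card_fin]
      push_cast
      ring
    simp only [h1]
    rw [Finset.sum_add_distrib, Finset.sum_const, Finset.card_univ, nsmul_eq_mul,
      ← Finset.mul_sum, mul_add, ih]
    push_cast
    ring

theorem bdiff {α : Type} {r : ℕ} (g : α → ℝ) (hg : ∀ b, g b = 0 ∨ g b = 1) (x : Fin r → α)
    (i : Fin r) (b : α) :
    |∑ a, g (Function.update x i b a) - ∑ a, g (x a)| ≤ 1 := by
  rw [← Finset.sum_sub_distrib, Finset.sum_eq_single i]
  · rw [Function.update_self]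
    rcases hg b with h | h <;> rcases hg (x i) with h' | h' <;> rw [h, h'] <;> norm_num
  · intro c _ hc
    rw [Function.update_of_ne hc, sub_self]
  · intro h
    exact absurd (mem_univ i) h

theorem one (hM : S_MGF) (e n σ r : ℕ) (t : Fin n → Finset (Fin r)) (hn : 1 ≤ n) (i : ℕ)
    (B : Finset (Fin σ → Fin n))
    (hB : ∀ S ∈ B, ¬ ((2 : ℝ) ^ e * |(cnt t S i : ℝ) * n - σ * mu t i| ≤ σ * n)) :
    (B.card : ℝ) * Real.exp ((σ : ℝ) / (2 * 4 ^ e)) ≤ 2 * (n : ℝ) ^ σ := by
  classical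
  have hn0 : (0 : ℝ) < n := by exact_mod_cast hn
  have : Nonempty (Fin n) := ⟨⟨0, hn⟩⟩
  set g : Fin n → ℝ := fun v => if (t v).card = i then 1 else 0 with hg
  have hg01 : ∀ b, g b = 0 ∨ g b = 1 := by
    intro b
    by_cases h : (t b).card = i
    · right; simp [hg, h]
    · left; simp [hg, h]
  set f : (Fin σ → Fin n) → ℝ := fun S => ∑ a, g (S a) with hf
  have hfc : ∀ S, f S = (cnt t S i : ℝ) := by
    intro S
    simp [hf, hg, cnt]
  have hgs : ∑ b, g b = (mu t i : ℝ) := by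
    simp [hg, mu]
  have hmean : (∑ y, f y) / (n : ℝ) ^ σ = σ * mu t i / n := by
    have h := mean_sum g σ
    rw [Fintype.card_fin, hgs] at h
    rw [div_eq_div_iff (pow_pos hn0 σ).ne' hn0.ne', mul_comm]
    exact h
  have hm := hM σ (Fin n) f 1 zero_le_one (fun x j b => bdiff g hg01 x j b)
  rw [Fintype.card_fin, hmean] at hm
  set m : ℝ := σ * mu t i / n with hmdef
  set l : ℝ := 1 / 2 ^ e with hl
  have h2e : (0 : ℝ) < 2 ^ e := by positivity
  have hl0 : 0 < l := by positivity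
  have hll : l ^ 2 = 1 / 4 ^ e := by
    rw [hl, div_pow, one_pow, ← pow_mul, mul_comm e 2, pow_mul]
    norm_num
  have hbad : ∀ S ∈ B, Real.exp (l ^ 2 * σ) ≤
      Real.exp (l * (f S - m)) + Real.exp (-l * (f S - m)) := by
    intro S hS
    have h := not_le.1 (hB S hS)
    have e1 : (cnt t S i : ℝ) * n - σ * mu t i = (f S - m) * n := by
      rw [hfc, hmdef]
      field_simp
    rw [e1, abs_mul, abs_of_pos hn0, ← mul_assoc] at h
    have h1 : (σ : ℝ) < 2 ^ e * |f S - m| := lt_of_mul_lt_mul_right h hn0.le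
    have h2 : l ^ 2 * σ ≤ l * |f S - m| := by
      have : l * σ ≤ |f S - m| := by
        rw [hl, one_div, inv_mul_le_iff₀ h2e]
        exact h1.le
      rw [pow_two, mul_assoc]
      exact mul_le_mul_of_nonneg_left this hl0.le
    refine (Real.exp_le_exp.2 h2).trans ?_
    rcases abs_cases (f S - m) with ⟨ha, _⟩ | ⟨ha, _⟩
    · rw [ha]
      exact le_add_of_nonneg_right (Real.exp_nonneg _)
    · rw [ha, mul_neg, ← neg_mul]
      exact le_add_of_nonneg_left (Real.exp_nonneg _)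
  have hsum : (B.card : ℝ) * Real.exp (l ^ 2 * σ) ≤ 2 * ((n : ℝ) ^ σ * Real.exp (l ^ 2 * σ / 2)) := by
    calc (B.card : ℝ) * Real.exp (l ^ 2 * σ) = ∑ S ∈ B, Real.exp (l ^ 2 * σ) := by
          rw [Finset.sum_const, nsmul_eq_mul]
      _ ≤ ∑ S ∈ B, (Real.exp (l * (f S - m)) + Real.exp (-l * (f S - m))) :=
          Finset.sum_le_sum hbad
      _ ≤ ∑ S, (Real.exp (l * (f S - m)) + Real.exp (-l * (f S - m))) :=
          Finset.sum_le_sum_of_subset_of_nonneg (Finset.subset_univ _)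
            fun _ _ _ => add_nonneg (Real.exp_nonneg _) (Real.exp_nonneg _)
      _ ≤ (n : ℝ) ^ σ * Real.exp (l ^ 2 * σ / 2) + (n : ℝ) ^ σ * Real.exp (l ^ 2 * σ / 2) := by
          rw [Finset.sum_add_distrib]
          have ha := hm l
          have hb := hm (-l)
          rw [neg_sq] at hb
          simp only [one_pow, mul_one] at ha hb
          exact add_le_add ha hb
      _ = 2 * ((n : ℝ) ^ σ * Real.exp (l ^ 2 * σ / 2)) := by ring
  have e2 : (σ : ℝ) / (2 * 4 ^ e) = l ^ 2 * σ / 2 := by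
    rw [hll]
    field_simp
  have e3 : Real.exp (l ^ 2 * σ) = Real.exp (l ^ 2 * σ / 2) * Real.exp (l ^ 2 * σ / 2) := by
    rw [← Real.exp_add]
    congr 1
    ring
  rw [e2]
  rw [e3, ← mul_assoc, ← mul_assoc] at hsum
  exact le_of_mul_le_mul_right hsum (Real.exp_pos _)

theorem t_SMP : S_MGF → S_SMP := by
  classical
  intro hM J e n σ r t hn
  let Bi : ℕ → Finset (Fin σ → Fin n) := fun i =>
    univ.filter fun S => ¬ ((2 : ℝ) ^ e * |(cnt t S i : ℝ) * n - σ * mu t i| ≤ σ * n)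
  have hsub : (univ.filter fun S : Fin σ → Fin n => ¬ Pool.Agent.L0h58.HN.Acc J e σ (cnt t S) t) ⊆
      (Icc 1 J).biUnion Bi := by
    intro S hS
    have h := (mem_filter.1 hS).2
    unfold Pool.Agent.L0h58.HN.Acc at h
    push Not at h
    obtain ⟨i, hi, hlt⟩ := h
    exact mem_biUnion.2 ⟨i, hi, mem_filter.2 ⟨mem_univ _, not_le.2 hlt⟩⟩
  have hcard : ((univ.filter fun S : Fin σ → Fin n => ¬ Pool.Agent.L0h58.HN.Acc J e σ (cnt t S) t).card : ℝ) ≤
      ∑ i ∈ Icc 1 J, ((Bi i).card : ℝ) := by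
    exact_mod_cast (Finset.card_le_card hsub).trans Finset.card_biUnion_le
  refine (mul_le_mul_of_nonneg_right hcard (Real.exp_nonneg _)).trans ?_
  rw [Finset.sum_mul]
  refine (Finset.sum_le_card_nsmul _ _ (2 * (n : ℝ) ^ σ) fun i _ => ?_).trans (le_of_eq ?_)
  · exact one hM e n σ r t hn i (Bi i) fun S hS => (mem_filter.1 hS).2
  · rw [Nat.card_Icc, nsmul_eq_mul, Nat.add_sub_cancel]
    ring

end Pool.Agent.L0h85.HN
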