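import Pool.Agent.L0h58.HN.Stm

/-! # HN: module UNI, the number of the ones of the function -/

set_option autoImplicit false

namespace Pool.Agent.L0h85.HN

open Finset Pool.Agent.L0h32.LT Pool.Agent.L0h32.LT2 Pool.Agent.L0h58.HN

theorem blk_add {n K ρ : ℕ} {F : Type} [Field F] (e : (Fin ρ → ZMod 2) → F)
    (M : Fin n → (Fin K × Fin 6 × Fin ρ → ZMod 2)) (A B : Finset (Fin n)) (hd : Disjoint A B)
    (hu : A ∪ B = univ) (x : Inp n) (j : Fin K) (c : Fin 6) :
    blk M e x j c = blk M e (rst A x) j c + blk M e (rst B x) j c := by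
  unfold blk
  rw [← Finset.sum_add_distrib]
  refine Finset.sum_congr rfl fun i _ => ?_
  unfold rst
  have hi : i ∈ A ∪ B := hu ▸ mem_univ i
  rcases Finset.mem_union.1 hi with h | h
  · have h' : i ∉ B := Finset.disjoint_left.1 hd h
    simp [h, h']
  · have h' : i ∉ A := Finset.disjoint_right.1 hd h
    simp [h, h']

theorem ev_add {K N : ℕ} {F : Type} [Field F] (τ : Fin N → F) (c d d' : Fin K → (Fin 6 → F))
    (h : ∀ j i, c j i = d j i + d' j i) (t : Fin N) (i : Fin 6) :
    ev τ c t i = ev τ d t i + ev τ d' t i := by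
  unfold ev
  rw [← Finset.sum_add_distrib]
  refine Finset.sum_congr rfl fun j _ => ?_
  rw [h, mul_add]

theorem spr (hV : S_VDM) (hF : S_FIB) {n K N ρ s : ℕ} {F X : Type} [Field F] [Fintype F]
    [Fintype X] [Algebra (ZMod 2) F] (e : (Fin ρ → ZMod 2) ≃ₗ[ZMod 2] F)
    (M : Fin n → (Fin K × Fin 6 × Fin ρ → ZMod 2)) (τ : Fin N → F) (hτ : Function.Injective τ)
    (A : Finset (Fin n))
    (hr : K * (6 * ρ) ≤ Module.finrank (ZMod 2) (Submodule.span (ZMod 2) (M '' A)) + s)
    (φ : X → Inp n) (hφ : Function.Injective φ) (h0 : ∀ x i, i ∉ A → φ x i = false)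
    (hc : Fintype.card X = 2 ^ A.card) :
    SpreadK K s fun x : X => ev τ (blk M e (φ x)) := by
  classical
  refine hV K N s F X τ (fun x => blk M e (φ x)) hτ ?_
  intro I z
  rw [hc, ← pow_add, add_comm s]
  refine le_trans (Nat.mul_le_mul_right _ ?_) (hF n K ρ s F e M A hr I z)
  refine Finset.card_le_card_of_injOn φ ?_ (fun x _ y _ h => hφ h)
  intro x hx
  have hx2 := (mem_filter.1 (Finset.mem_coe.1 hx)).2
  exact Finset.mem_coe.2 (mem_filter.2 ⟨mem_univ _, h0 x, hx2⟩)

theorem crd {n : ℕ} (A : Finset (Fin n)) [Fintype {x : Inp n // ∀ i, i ∉ A → x i = false}] :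
    Fintype.card {x : Inp n // ∀ i, i ∉ A → x i = false} = 2 ^ A.card := by
  classical
  rw [← card_cube A (fun _ => false)]
  rw [← Fintype.card_coe]
  refine Fintype.card_congr (Equiv.subtypeEquivRight fun x => ?_)
  rw [mem_cube]

theorem t_UNI : S_ZER2 → S_VDM → S_FIB → S_UNI := by
  classical
  intro hZ hV hF n K N ρ s F _ _ _ e M τ hτ hcF hK A B hd hu hA hB
  have : CharP F 2 := charP_of_injective_algebraMap (algebraMap (ZMod 2) F).injective 2
  have hX := crd A
  have hY := crd B
  have h := hZ N K s F {x : Inp n // ∀ i, i ∉ A → x i = false}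
    {x : Inp n // ∀ i, i ∉ B → x i = false} (fun x => ev τ (blk M e x.1))
    (fun x => ev τ (blk M e x.1)) hK (spr hV hF e M τ hτ A hA _ Subtype.val_injective (fun x => x.2) hX)
    (spr hV hF e M τ hτ B hB _ Subtype.val_injective (fun x => x.2) hY)
  have hn : A.card + B.card = n := by
    rw [← Finset.card_union_of_disjoint hd, hu, Finset.card_univ, Fintype.card_fin]
  rw [hX, hY, ← pow_add, hn] at h
  refine le_trans (Nat.mul_le_mul_left _ ?_) h
  let g : Inp n → {x : Inp n // ∀ i, i ∉ A → x i = false} ×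
      {x : Inp n // ∀ i, i ∉ B → x i = false} := fun x =>
    (⟨rst A x, fun i hi => by simp [rst, hi]⟩, ⟨rst B x, fun i hi => by simp [rst, hi]⟩)
  refine Finset.card_le_card_of_injOn g ?_ ?_
  · intro x hx
    obtain ⟨t, ht⟩ := (mem_filter.1 (Finset.mem_coe.1 hx)).2
    refine Finset.mem_coe.2 (mem_filter.2 ⟨mem_univ _, t, ?_⟩)
    have e1 : (fun c => ev τ (blk M e (rst A x)) t c + ev τ (blk M e (rst B x)) t c) =
        ev τ (blk M e x) t := by
      funext c
      exact (ev_add τ _ _ _ (fun j i => blk_add e M A B hd hu x j i) t c).symm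
    show qf (fun c => ev τ (blk M e (rst A x)) t c + ev τ (blk M e (rst B x)) t c) = 0
    rw [e1]
    exact ht
  · intro x _ y _ hxy
    funext i
    have h1 : rst A x = rst A y := congrArg Subtype.val (congrArg Prod.fst hxy)
    have h2 : rst B x = rst B y := congrArg Subtype.val (congrArg Prod.snd hxy)
    have hi : i ∈ A ∪ B := hu ▸ mem_univ i
    rcases Finset.mem_union.1 hi with h | h
    · have := congrFun h1 i
      simpa [rst, h] using this
    · have := congrFun h2 i
      simpa [rst, h] using this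

end Pool.Agent.L0h85.HN
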