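import Pool.Agent.L0h58.HN.Stm

/-! # HN: module VDM, interpolation -/

set_option autoImplicit false

namespace Pool.Agent.L0h85.HN

open Finset Pool.Agent.L0h32.LT2 Pool.Agent.L0h58.HN Polynomial

/-- the polynomial with given coefficients -/
noncomputable def pl {K : ℕ} {F : Type} [Field F] (c : Fin K → F) : F[X] :=
  ∑ d : Fin K, C (c d) * X ^ (d : ℕ)

theorem pl_eval {K : ℕ} {F : Type} [Field F] (c : Fin K → F) (x : F) :
    (pl c).eval x = ∑ d : Fin K, x ^ (d : ℕ) * c d := by
  unfold pl
  rw [eval_finsetSum]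
  refine Finset.sum_congr rfl fun d _ => ?_
  rw [eval_mul, eval_C, eval_pow, eval_X, mul_comm]

theorem pl_coeff {K : ℕ} {F : Type} [Field F] (c : Fin K → F) (d : Fin K) :
    (pl c).coeff d = c d := by
  unfold pl
  rw [finsetSum_coeff]
  rw [Finset.sum_eq_single d]
  · simp
  · intro b _ hb
    rw [coeff_C_mul, coeff_X_pow, if_neg (fun h => hb (Fin.ext h.symm)), mul_zero]
  · intro h
    exact absurd (mem_univ d) h

theorem pl_degree {K : ℕ} {F : Type} [Field F] (c : Fin K → F) (p : ℕ)
    (h : ∀ d : Fin K, p ≤ (d : ℕ) → c d = 0) : (pl c).degree < p := by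
  unfold pl
  rw [Polynomial.degree_lt_iff_coeff_zero]
  intro m hm
  rw [finsetSum_coeff]
  refine Finset.sum_eq_zero fun d _ => ?_
  rw [coeff_C_mul, coeff_X_pow]
  split_ifs with hmd
  · rw [h d (hmd ▸ hm), zero_mul]
  · rw [mul_zero]

theorem inj_aux {K N : ℕ} {F : Type} [Field F] [DecidableEq F] (τ : Fin N → F)
    (hτ : Function.Injective τ) (I : Finset (Fin N)) (c c' : Fin K → (Fin 6 → F))
    (he : ∀ j ∈ I, ev τ c j = ev τ c' j)
    (h : ∀ d : Fin K, I.card ≤ (d : ℕ) → c d = c' d) : c = c' := by
  funext d i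
  have hz : pl (fun d => c d i - c' d i) = 0 := by
    refine Polynomial.eq_zero_of_degree_lt_of_eval_finset_eq_zero (I.image τ) ?_ ?_
    · rw [Finset.card_image_of_injective _ hτ]
      exact pl_degree _ _ fun d hd => by rw [h d hd, sub_self]
    · intro x hx
      obtain ⟨j, hj, rfl⟩ := Finset.mem_image.1 hx
      rw [pl_eval]
      have := congrFun (he j hj) i
      unfold ev at this
      simp only [mul_sub, Finset.sum_sub_distrib]
      rw [this, sub_self]
  have := pl_coeff (fun d => c d i - c' d i) d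
  rw [hz, coeff_zero] at this
  exact (sub_eq_zero.1 this.symm)

theorem t_VDM : S_VDM := by
  classical
  intro K N s F X _ _ _ τ a hτ hs I z hIK
  set p := I.card with hp
  set q := Fintype.card F with hq
  have hq0 : 0 < q := Fintype.card_pos
  let Cs : Finset (Fin K → (Fin 6 → F)) := univ.filter fun c => ∀ j ∈ I, ev τ c j = z j
  have hCs : Cs.card ≤ q ^ (6 * (K - p)) := by
    let g : (Fin K → (Fin 6 → F)) → (Fin (K - p) → (Fin 6 → F)) :=
      fun c d => c ⟨p + d, by have := d.2; omega⟩
    have h1 : Cs.card ≤ (univ : Finset (Fin (K - p) → (Fin 6 → F))).card := by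
      refine Finset.card_le_card_of_injOn g (fun c _ => mem_univ _) ?_
      intro c hc c' hc' hg
      have hc1 := (mem_filter.1 (Finset.mem_coe.1 hc)).2
      have hc2 := (mem_filter.1 (Finset.mem_coe.1 hc')).2
      refine inj_aux τ hτ I c c' (fun j hj => (hc1 j hj).trans (hc2 j hj).symm) fun d hd => ?_
      have := congrFun hg ⟨d - p, by have := d.2; omega⟩
      have e : (⟨p + (d - p), by have := d.2; omega⟩ : Fin K) = d := Fin.ext (by simp; omega)
      simp only [g] at this
      rwa [e] at this
    refine h1.trans (le_of_eq ?_)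
    rw [Finset.card_univ]
    simp only [Fintype.card_fun, Fintype.card_fin]
    rw [← pow_mul]
  have hA : (univ.filter fun x => ∀ j ∈ I, ev τ (a x) j = z j).card * q ^ (6 * K) ≤
      Cs.card * (2 ^ s * Fintype.card X) := by
    have h2 : (univ.filter fun x => ∀ j ∈ I, ev τ (a x) j = z j) =
        Cs.biUnion fun c => univ.filter fun x => ∀ d ∈ (univ : Finset (Fin K)), a x d = c d := by
      ext x
      simp only [mem_filter, mem_univ, true_and, mem_biUnion, Cs, true_imp_iff]
      constructor
      · intro h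
        exact ⟨a x, h, fun d => rfl⟩
      · rintro ⟨c, hc, hx⟩
        have : a x = c := funext hx
        rw [this]
        exact hc
    rw [h2]
    refine (Nat.mul_le_mul_right _ Finset.card_biUnion_le).trans ?_
    rw [Finset.sum_mul]
    refine (Finset.sum_le_card_nsmul _ _ (2 ^ s * Fintype.card X) fun c _ => ?_).trans (by simp)
    have := hs univ c
    rwa [Finset.card_univ, Fintype.card_fin] at this
  have hfin : (univ.filter fun x => ∀ j ∈ I, ev τ (a x) j = z j).card * q ^ (6 * p) *
      q ^ (6 * (K - p)) ≤ 2 ^ s * Fintype.card X * q ^ (6 * (K - p)) := by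
    have e : 6 * p + 6 * (K - p) = 6 * K := by omega
    rw [mul_assoc, ← pow_add, e]
    refine hA.trans ?_
    rw [mul_comm]
    exact Nat.mul_le_mul_left _ hCs
  exact Nat.le_of_mul_le_mul_right hfin (pow_pos hq0 _)

end Pool.Agent.L0h85.HN
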